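import Mathlib

namespace Pool.Agent.Results.MP_9bce75_nt.Example492

open Finset

/-- `a(n)`: the number of distinct positive integers `∑_{d ∈ S} d`, where `S` ranges over the
non-empty subsets of the set of proper divisors of `n`. -/
def a (n : ℕ) : ℕ :=
  ((n.properDivisors.powerset.filter (fun S => S.Nonempty)).image (fun S => ∑ d ∈ S, d)).card

/-- Bit mask of the subset sums of a list. -/
def mask : List ℕ → ℕ
  | [] => 1
  | d :: l => mask l ||| (mask l <<< d)

lemma testBit_mask (l : List ℕ) (hl : l.Nodup) (i : ℕ) :
    (mask l).testBit i = true ↔ ∃ S ⊆ l.toFinset, ∑ d ∈ S, d = i := by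
  induction l generalizing i with
  | nil =>
    simp only [mask, List.toFinset_nil, subset_empty, exists_eq_left, sum_empty]
    rw [Nat.testBit_one_eq_true_iff_self_eq_zero]
    exact eq_comm
  | cons d l ih =>
    rw [List.nodup_cons] at hl
    simp only [mask, Nat.testBit_or, Bool.or_eq_true, Nat.testBit_shiftLeft, Bool.and_eq_true,
      decide_eq_true_eq, ih hl.2]
    have hd : d ∉ l.toFinset := by simpa using hl.1
    constructor
    · rintro (⟨S, hS, rfl⟩ | ⟨hdi, S, hS, hs⟩)
      · refine ⟨S, hS.trans ?_, rfl⟩
        rw [List.toFinset_cons]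
        exact subset_insert _ _
      · refine ⟨insert d S, ?_, ?_⟩
        · rw [List.toFinset_cons]
          exact insert_subset_insert _ hS
        · rw [sum_insert (fun h => hd (hS h)), hs]
          omega
    · rintro ⟨S, hS, rfl⟩
      rw [List.toFinset_cons] at hS
      by_cases hdS : d ∈ S
      · right
        have h1 : ∑ x ∈ S, x = d + ∑ x ∈ S.erase d, x := (add_sum_erase S (fun x => x) hdS).symm
        refine ⟨by omega, S.erase d, ?_, by omega⟩
        intro x hx
        rw [mem_erase] at hx
        have := hS hx.2
        rw [mem_insert] at this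
        tauto
      · left
        refine ⟨S, ?_, rfl⟩
        intro x hx
        have := hS hx
        rw [mem_insert] at this
        rcases this with rfl | h
        · exact absurd hx hdS
        · exact h

def L : List ℕ := [1, 2, 3, 4, 6, 12, 41, 82, 123, 164, 246]

lemma divs : Nat.properDivisors 492 = L.toFinset := by decide +kernel

lemma a_492 : a 492 = 492 := by
  have h1 : ((Nat.properDivisors 492).powerset.filter (fun S => S.Nonempty)).image
      (fun S => ∑ d ∈ S, d) = (range 685).filter (fun i => 0 < i ∧ (mask L).testBit i = true) := by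
    ext i
    rw [mem_filter, mem_range, mem_image, testBit_mask L (by decide)]
    constructor
    · rintro ⟨S, hS, rfl⟩
      rw [mem_filter, mem_powerset] at hS
      obtain ⟨hS, hne⟩ := hS
      refine ⟨?_, ?_, S, divs ▸ hS, rfl⟩
      · have h2 : ∑ d ∈ S, d ≤ ∑ d ∈ Nat.properDivisors 492, d :=
          sum_le_sum_of_subset hS
        have h3 : ∑ d ∈ Nat.properDivisors 492, d = 684 := by rw [divs]; decide
        omega
      · apply sum_pos _ hne
        intro x hx
        exact Nat.pos_of_mem_properDivisors (hS hx)
    · rintro ⟨_, hi, S, hS, hs⟩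
      refine ⟨S, ?_, hs⟩
      rw [mem_filter, mem_powerset, divs]
      refine ⟨hS, ?_⟩
      rw [nonempty_iff_ne_empty]
      rintro rfl
      simp at hs
      omega
  unfold a
  rw [h1]
  decide +kernel

/-- `492` satisfies `a(492) = 492` and is not perfect, so it is not true that every positive
integer `n` with `a(n) = n` is an even perfect number. -/
theorem result : a 492 = 492 ∧ ¬ Nat.Perfect 492 := by
  refine ⟨a_492, fun h => ?_⟩
  have h2 : ∑ d ∈ Nat.properDivisors 492, d = 492 := h.1
  rw [divs] at h2
  revert h2
  decide

end Pool.Agent.Results.MP_9bce75_nt.Example492
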